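import Pool.Agent.H86.WB.Exb
import Pool.Agent.H12.AQ.Bas

/-!
# (W2#): `Exb3Stmt` (AQ, MP_b39724)

PROOF. For fixed `b₁ ≠ 0`, `b₂` both forms are quadratic in `b₃` and its conjugate. On a line `b₃ = y + x δ`, `x ∈ 𝓞 k`, `δ` a cube root of
unity, the form is a quadratic polynomial in `x` with leading coefficient `a_δ` of size at least `|b₁|_φ²` for one of the three `δ`
(`lead1`, `lead2`). The lines are counted by `η = b₃ δ' - b₃' δ` (`fibM`), `x` by `lineT`: at most `C (1 / R + √(r / R)) R ^ d` values of `b₃`,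
`r = μ s² / |b₁|_φ`. The sum over `b₁` of `|b₁|_φ ^ (-1/2)` by `nsum`.
-/

set_option autoImplicit false

namespace H96.AQ

open NumberField Finset H88.A4 Pool.Agent.H67.WA H88.WS H88.AQ Pool.Agent.H12.WM H12.AQ H86.WB

private theorem quad (a l q : ℂ) : ∃ w : ℂ, ∀ x : ℂ,
    4 * a * (a * x ^ 2 + l * x + q) = (2 * a * x + l - w) * (2 * a * x + l + w) := by
  obtain ⟨w, hw⟩ := IsAlgClosed.exists_pow_nat_eq (l ^ 2 - 4 * a * q) (n := 2) (by norm_num)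
  exact ⟨w, fun x => by linear_combination hw⟩

section one

variable (K : Type) [Field K] [NumberField K]

variable {K} in
private theorem vol_ite (φ : K →+* ℂ) [DecidableEq (K →+* ℂ)] {r R : ℝ} (hR : 0 < R) :
    vol (fun ψ => if ψ = φ then 2 * r else 2 * R) =
      2 ^ Module.finrank ℚ K * (r / R * R ^ Module.finrank ℚ K) := by
  have e1 : (2 * R) ^ Module.finrank ℚ K = 2 * R * ∏ ψ ∈ Finset.univ.erase φ, (2 * R) := by
    rw [Finset.mul_prod_erase (s := (Finset.univ : Finset (K →+* ℂ))) (a := φ)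
      (fun ψ => 2 * R) (Finset.mem_univ φ)]
    exact (vol_const (K := K) (2 * R)).symm
  have e2 : vol (fun ψ => if ψ = φ then 2 * r else 2 * R) =
      2 * r * ∏ ψ ∈ Finset.univ.erase φ, (2 * R) := by
    rw [vol, ← Finset.mul_prod_erase _ _ (Finset.mem_univ φ), if_pos rfl]
    congr 1
    refine Finset.prod_congr rfl fun ψ hψ => ?_
    rw [if_neg (Finset.ne_of_mem_erase hψ)]
  rw [e2]
  have e3 : 2 ^ Module.finrank ℚ K * (r / R * R ^ Module.finrank ℚ K) =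
      r / R * (2 * R) ^ Module.finrank ℚ K := by
    rw [mul_pow]
    ring
  rw [e3, e1]
  field_simp

/-- one disc -/
private theorem disc : ∃ C : ℝ, 1 ≤ C ∧ ∀ (φ : K →+* ℂ) (R r : ℝ), 1 ≤ R → 1 ≤ r →
    ∀ S : Finset (𝓞 K), (∀ x ∈ S, ∀ ψ, sz ψ x ≤ R) → (∀ x ∈ S, ∀ y ∈ S, sz φ (x - y) ≤ 2 * r) →
    (S.card : ℝ) ≤ C * (r / R * R ^ Module.finrank ℚ K) := by
  classical
  obtain ⟨C1, hC1, h1⟩ := f1d K
  obtain ⟨d, hd⟩ : ∃ d, d = Module.finrank ℚ K := ⟨_, rfl⟩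
  have hd0 : d ≠ 0 := hd ▸ Module.finrank_pos.ne'
  have h2d : (1 : ℝ) ≤ 2 ^ d := one_le_pow₀ (by norm_num)
  refine ⟨C1 * (1 + 2 ^ d), by nlinarith, ?_⟩
  intro φ R r hR hr S hS hS2
  have hR0 : 0 < R := by linarith
  have h2 := h1 ⊤ top_ne_bot (fun ψ => if ψ = φ then 2 * r else 2 * R)
    (fun ψ => by
      show 0 ≤ if ψ = φ then 2 * r else 2 * R
      split_ifs <;> positivity) S
    (fun x hx y hy => ⟨Submodule.mem_top, fun ψ => by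
      show sz ψ (x - y) ≤ if ψ = φ then 2 * r else 2 * R
      split_ifs with h
      · rw [h]
        exact hS2 x hx y hy
      · have := sz_sub ψ x y
        have := hS x hx ψ
        have := hS y hy ψ
        linarith⟩)
  rw [ni_top, div_one, vol_ite φ hR0, ← hd] at h2
  refine h2.trans ?_
  rw [← hd]
  have h3 : 1 ≤ r / R * R ^ d := by
    have h4 : R ≤ R ^ d := le_self_pow₀ hR hd0
    calc 1 ≤ r := hr
      _ = r / R * R := by field_simp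
      _ ≤ r / R * R ^ d := mul_le_mul_of_nonneg_left h4 (by positivity)
  calc C1 * (1 + 2 ^ d * (r / R * R ^ d)) ≤ C1 * (r / R * R ^ d + 2 ^ d * (r / R * R ^ d)) := by
        refine mul_le_mul_of_nonneg_left ?_ (by linarith)
        linarith
    _ = _ := by ring

/-- a quadratic polynomial which is small at `φ` -/
private theorem line : ∃ C : ℝ, 1 ≤ C ∧ ∀ (φ : K →+* ℂ) (a l q : ℂ) (R r E : ℝ), a ≠ 0 →
    1 ≤ R → 1 ≤ r → E ≤ ‖a‖ * r ^ 2 → ∀ S : Finset (𝓞 K),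
    (∀ x ∈ S, (∀ ψ, sz ψ x ≤ R) ∧ ‖a * φ (x : K) ^ 2 + l * φ (x : K) + q‖ ≤ E) →
    (S.card : ℝ) ≤ C * (r / R * R ^ Module.finrank ℚ K) := by
  classical
  obtain ⟨C1, hC1, h1⟩ := disc K
  refine ⟨2 * C1, by linarith, ?_⟩
  intro φ a l q R r E ha hR hr hE S hS
  obtain ⟨w, hw⟩ := quad a l q
  have ha0 : 0 < ‖a‖ := norm_pos_iff.2 ha
  have hpt : ∀ x ∈ S, ‖2 * a * φ (x : K) + l - w‖ ≤ 2 * ‖a‖ * r ∨
      ‖2 * a * φ (x : K) + l + w‖ ≤ 2 * ‖a‖ * r := by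
    intro x hx
    by_contra hcon
    push Not at hcon
    obtain ⟨h2, h3⟩ := hcon
    have h4 := (hS x hx).2
    have h5 : ‖4 * a * (a * φ (x : K) ^ 2 + l * φ (x : K) + q)‖ =
        4 * (‖a‖ * ‖a * φ (x : K) ^ 2 + l * φ (x : K) + q‖) := by
      rw [norm_mul, norm_mul]
      have e1 : ‖(4 : ℂ)‖ = 4 := by norm_num
      rw [e1]
      ring
    rw [hw, norm_mul] at h5
    have h6 : (2 * ‖a‖ * r) * (2 * ‖a‖ * r) <
        ‖2 * a * φ (x : K) + l - w‖ * ‖2 * a * φ (x : K) + l + w‖ :=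
      mul_lt_mul'' h2 h3 (by positivity) (by positivity)
    rw [h5] at h6
    have h7 : ‖a‖ * ‖a * φ (x : K) ^ 2 + l * φ (x : K) + q‖ ≤ ‖a‖ * (‖a‖ * r ^ 2) :=
      mul_le_mul_of_nonneg_left (h4.trans hE) ha0.le
    nlinarith
  have hdiff : ∀ (z : ℂ) (T : Finset (𝓞 K)), T ⊆ S →
      (∀ x ∈ T, ‖2 * a * φ (x : K) + z‖ ≤ 2 * ‖a‖ * r) →
      (T.card : ℝ) ≤ C1 * (r / R * R ^ Module.finrank ℚ K) := by
    intro z T hT hz
    refine h1 φ R r hR hr T (fun x hx => (hS x (hT hx)).1) fun x hx y hy => ?_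
    have h2 := norm_sub_le (2 * a * φ (x : K) + z) (2 * a * φ (y : K) + z)
    have h3 : ‖2 * a * φ (x : K) + z - (2 * a * φ (y : K) + z)‖ = 2 * ‖a‖ * sz φ (x - y) := by
      have e1 : 2 * a * φ (x : K) + z - (2 * a * φ (y : K) + z) =
          2 * a * φ ((x - y : 𝓞 K) : K) := by
        simp [map_sub]
        ring
      rw [e1, norm_mul, norm_mul]
      have e2 : ‖(2 : ℂ)‖ = 2 := by norm_num
      rw [e2]
      rfl
    rw [h3] at h2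
    have h4 := hz x hx
    have h5 := hz y hy
    have h6 : 2 * ‖a‖ * sz φ (x - y) ≤ 2 * ‖a‖ * (2 * r) := by linarith
    exact le_of_mul_le_mul_left h6 (by positivity)
  rw [← Finset.card_filter_add_card_filter_not
    (fun x : 𝓞 K => ‖2 * a * φ (x : K) + l - w‖ ≤ 2 * ‖a‖ * r)]
  push_cast
  have g1 := hdiff (l - w) (S.filter fun x : 𝓞 K =>
    ‖2 * a * φ (x : K) + l - w‖ ≤ 2 * ‖a‖ * r) (Finset.filter_subset _ _)
    (fun x hx => by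
      have := (Finset.mem_filter.1 hx).2
      rwa [add_sub_assoc] at this)
  have g2 := hdiff (l + w) (S.filter fun x : 𝓞 K =>
    ¬ ‖2 * a * φ (x : K) + l - w‖ ≤ 2 * ‖a‖ * r) (Finset.filter_subset _ _)
    (fun x hx => by
      obtain ⟨h2, h3⟩ := Finset.mem_filter.1 hx
      have := (hpt x h2).resolve_left h3
      rwa [add_assoc] at this)
  linarith

/-- a box -/
private theorem boxc : ∃ C : ℝ, 1 ≤ C ∧ ∀ R : ℝ, 1 ≤ R → ∀ S : Finset (𝓞 K), (∀ x ∈ S, Bd R x) →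
    (S.card : ℝ) ≤ C * R ^ Module.finrank ℚ K := by
  obtain ⟨C2, hC2, h2⟩ := f1 K
  refine ⟨2 * C2, by linarith, fun R hR S hS => ?_⟩
  have h3 := h2 ⊤ top_ne_bot (fun _ => R) (fun _ => by linarith) S
    (fun z hz => ⟨Submodule.mem_top, hS z hz⟩)
  rw [ni_top, div_one, vol_const] at h3
  have h4 : 1 ≤ R ^ Module.finrank ℚ K := one_le_pow₀ hR
  nlinarith

/-- the same with the trivial bound -/
private theorem lineT : ∃ C : ℝ, 1 ≤ C ∧ ∀ (φ : K →+* ℂ) (a l q : ℂ) (R r E : ℝ), a ≠ 0 →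
    1 ≤ R → 0 < r → E ≤ ‖a‖ * r ^ 2 → ∀ S : Finset (𝓞 K),
    (∀ x ∈ S, Bd R x ∧ ‖a * φ (x : K) ^ 2 + l * φ (x : K) + q‖ ≤ E) →
    (S.card : ℝ) ≤ C * ((1 / R + (r / R) ^ (1 / 2 : ℝ)) * R ^ Module.finrank ℚ K) := by
  obtain ⟨C1, hC1, h1⟩ := line K
  obtain ⟨C2, hC2, h2⟩ := boxc K
  refine ⟨C1 + C2, by linarith, ?_⟩
  intro φ a l q R r E ha hR hr hE S hS
  have hR0 : 0 < R := by linarith
  have hrR : 0 < r / R := by positivity
  have hsq : 0 ≤ (r / R) ^ (1 / 2 : ℝ) := Real.rpow_nonneg hrR.le _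
  have hRd : 0 < R ^ Module.finrank ℚ K := by positivity
  have hmono : ∀ c t : ℝ, 0 ≤ c → c ≤ C1 + C2 → 0 ≤ t → t ≤ 1 / R + (r / R) ^ (1 / 2 : ℝ) →
      c * (t * R ^ Module.finrank ℚ K) ≤
      (C1 + C2) * ((1 / R + (r / R) ^ (1 / 2 : ℝ)) * R ^ Module.finrank ℚ K) := by
    intro c t hc0 hc ht0 ht
    exact mul_le_mul hc (mul_le_mul_of_nonneg_right ht hRd.le) (by positivity) (by linarith)
  have h1R : 0 < 1 / R := by positivity
  rcases le_or_gt r 1 with hr1 | hr1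
  · have h3 := h1 φ a l q R 1 E ha hR le_rfl (hE.trans (by
      have : ‖a‖ * r ^ 2 ≤ ‖a‖ * 1 ^ 2 :=
        mul_le_mul_of_nonneg_left (pow_le_pow_left₀ hr.le hr1 2) (norm_nonneg _)
      exact this)) S hS
    exact h3.trans (hmono C1 (1 / R) (by linarith) (by linarith) h1R.le (by linarith))
  · rcases le_or_gt r R with hrR1 | hrR1
    · have h3 := h1 φ a l q R r E ha hR hr1.le hE S hS
      refine h3.trans (hmono C1 (r / R) (by linarith) (by linarith) hrR.le ?_)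
      have h4 : r / R ≤ 1 := (div_le_one hR0).2 hrR1
      have h5 := Real.rpow_le_rpow_of_exponent_ge hrR h4 (show (1 / 2 : ℝ) ≤ 1 by norm_num)
      rw [Real.rpow_one] at h5
      linarith
    · have h3 := h2 R hR S fun x hx => (hS x hx).1
      have h4 : 1 ≤ (r / R) ^ (1 / 2 : ℝ) :=
        Real.one_le_rpow ((one_le_div hR0).2 hrR1.le) (by norm_num)
      have h5 := hmono C2 1 (by linarith) (by linarith) (by norm_num) (by linarith)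
      rw [one_mul] at h5
      exact h3.trans h5

/-- the sum of `|x|_φ ^ (-1/2)` -/
private theorem psum : ∃ C : ℝ, 1 ≤ C ∧ ∀ (φ : K →+* ℂ) (X : ℝ), 1 ≤ X → ∀ S : Finset (𝓞 K),
    (∀ x ∈ S, x ≠ 0 ∧ Bd X x) →
    ∑ x ∈ S, sz φ x ^ (-(1 / 2) : ℝ) ≤ C * (X ^ (-(1 / 2) : ℝ) * X ^ Module.finrank ℚ K) := by
  classical
  obtain ⟨C1, hC1, h1⟩ := nsum K (a := 1 / 2) (by norm_num) (by norm_num)
  refine ⟨C1, hC1, fun φ X hX S hS => ?_⟩
  have hX0 : 0 < X := by linarith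
  have h2 := h1 ⊤ top_ne_bot X hX0 S fun x hx => ⟨(hS x hx).1, Submodule.mem_top, (hS x hx).2⟩
  rw [ni_top, div_one] at h2
  obtain ⟨D, hD⟩ : ∃ D : ℝ, D = X ^ Module.finrank ℚ K := ⟨_, rfl⟩
  have hD0 : 0 < D := by rw [hD]; positivity
  rw [← hD] at h2 ⊢
  have h3 : ∀ x ∈ S, sz φ x ^ (-(1 / 2) : ℝ) ≤
      (X ^ (-(1 / 2) : ℝ) * D ^ (1 / 2 : ℝ)) * nz x ^ (-(1 / 2) : ℝ) := by
    intro x hx
    have hp := sz_pos φ (hS x hx).1
    have hn := nz_pos (hS x hx).1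
    have h4 : nz x * X ≤ sz φ x * D := by
      have e1 : nz x = sz φ x * ∏ ψ ∈ Finset.univ.erase φ, sz ψ x :=
        (Finset.mul_prod_erase (s := (Finset.univ : Finset (K →+* ℂ))) (a := φ)
          (fun ψ => sz ψ x) (Finset.mem_univ φ)).symm
      have e2 : D = X * ∏ ψ ∈ Finset.univ.erase φ, X := by
        rw [hD, Finset.mul_prod_erase (s := (Finset.univ : Finset (K →+* ℂ))) (a := φ)
          (fun ψ => X) (Finset.mem_univ φ)]
        exact (vol_const (K := K) X).symm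
      have e3 : ∏ ψ ∈ Finset.univ.erase φ, sz ψ x ≤ ∏ ψ ∈ Finset.univ.erase φ, X :=
        Finset.prod_le_prod (fun ψ _ => sz_nonneg ψ x) fun ψ _ => (hS x hx).2 ψ
      rw [e1, e2]
      calc sz φ x * (∏ ψ ∈ Finset.univ.erase φ, sz ψ x) * X
          ≤ sz φ x * (∏ ψ ∈ Finset.univ.erase φ, X) * X :=
            mul_le_mul_of_nonneg_right (mul_le_mul_of_nonneg_left e3 hp.le) hX0.le
        _ = _ := by ring
    have h5 : (nz x * X) / D ≤ sz φ x := by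
      rw [div_le_iff₀ hD0]
      exact h4
    have h6 := Real.rpow_le_rpow_of_nonpos (show 0 < (nz x * X) / D by positivity) h5
      (show (-(1 / 2) : ℝ) ≤ 0 by norm_num)
    refine h6.trans (le_of_eq ?_)
    rw [Real.div_rpow (by positivity) hD0.le, Real.mul_rpow hn.le hX0.le,
      Real.rpow_neg hD0.le, div_inv_eq_mul]
    ring
  refine (Finset.sum_le_sum h3).trans ?_
  rw [← Finset.mul_sum]
  have h7 : 0 ≤ X ^ (-(1 / 2) : ℝ) * D ^ (1 / 2 : ℝ) := by positivity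
  refine (mul_le_mul_of_nonneg_left h2 h7).trans (le_of_eq ?_)
  have h8 : D ^ (1 / 2 : ℝ) * D ^ (1 - 1 / 2 : ℝ) = D := by
    rw [← Real.rpow_add hD0]
    norm_num
  calc X ^ (-(1 / 2) : ℝ) * D ^ (1 / 2 : ℝ) * (C1 * D ^ (1 - 1 / 2 : ℝ)) =
        C1 * (X ^ (-(1 / 2) : ℝ) * (D ^ (1 / 2 : ℝ) * D ^ (1 - 1 / 2 : ℝ))) := by ring
    _ = _ := by rw [h8]

end one

section cx

/-- one of the three leading coefficients is large, first form -/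
private theorem lead1 {w p q : ℂ} (hw : w ^ 2 + w + 1 = 0) :
    ‖p‖ ^ 2 ≤ ‖p ^ 2 + p * q + q ^ 2‖ ∨ ‖p‖ ^ 2 ≤ ‖p ^ 2 * w + p * q + q ^ 2 * w ^ 2‖ ∨
      ‖p‖ ^ 2 ≤ ‖p ^ 2 * w ^ 2 + p * q + q ^ 2 * w‖ := by
  by_contra hcon
  push Not at hcon
  obtain ⟨h1, h2, h3⟩ := hcon
  have hw3 : w ^ 3 = 1 := by linear_combination (w - 1) * hw
  have hn : ‖w‖ = 1 := by
    have h4 : ‖w‖ ^ 3 = 1 := by rw [← norm_pow, hw3, norm_one]
    exact (pow_eq_one_iff_of_nonneg (norm_nonneg _) (by norm_num)).1 h4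
  have e : 3 * p ^ 2 = (p ^ 2 + p * q + q ^ 2) + w ^ 2 * (p ^ 2 * w + p * q + q ^ 2 * w ^ 2) +
      w * (p ^ 2 * w ^ 2 + p * q + q ^ 2 * w) := by
    linear_combination (-2 * p ^ 2 - q ^ 2 * w) * hw3 + (-p * q - q ^ 2) * hw
  have h5 : ‖3 * p ^ 2‖ = 3 * ‖p‖ ^ 2 := by
    rw [norm_mul, norm_pow]
    norm_num
  have h6 : ‖(p ^ 2 + p * q + q ^ 2) + w ^ 2 * (p ^ 2 * w + p * q + q ^ 2 * w ^ 2) +
      w * (p ^ 2 * w ^ 2 + p * q + q ^ 2 * w)‖ < 3 * ‖p‖ ^ 2 := by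
    refine (norm_add₃_le).trans_lt ?_
    rw [norm_mul, norm_mul, norm_pow, hn]
    linarith
  rw [← e, h5] at h6
  exact lt_irrefl _ h6

/-- second form -/
private theorem lead2 {w p q : ℂ} (hw : w ^ 2 + w + 1 = 0) :
    ‖p‖ ^ 2 ≤ ‖(p - q) ^ 2‖ ∨ ‖p‖ ^ 2 ≤ ‖(p * w ^ 2 - q * w) ^ 2‖ ∨
      ‖p‖ ^ 2 ≤ ‖(p * w - q * w ^ 2) ^ 2‖ := by
  by_contra hcon
  push Not at hcon
  obtain ⟨h1, h2, h3⟩ := hcon
  have hw3 : w ^ 3 = 1 := by linear_combination (w - 1) * hw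
  have hn : ‖w‖ = 1 := by
    have h4 : ‖w‖ ^ 3 = 1 := by rw [← norm_pow, hw3, norm_one]
    exact (pow_eq_one_iff_of_nonneg (norm_nonneg _) (by norm_num)).1 h4
  have e : 3 * p ^ 2 = (p - q) ^ 2 + w ^ 2 * (p * w ^ 2 - q * w) ^ 2 +
      w * (p * w - q * w ^ 2) ^ 2 := by
    linear_combination (-p ^ 2 * (w ^ 3 + 2) + 2 * p * q * (w ^ 2 + w) - q ^ 2 * (w + w ^ 2)) * hw3 +
      (2 * p * q - q ^ 2) * hw
  have h5 : ‖3 * p ^ 2‖ = 3 * ‖p‖ ^ 2 := by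
    rw [norm_mul, norm_pow]
    norm_num
  have h6 : ‖(p - q) ^ 2 + w ^ 2 * (p * w ^ 2 - q * w) ^ 2 +
      w * (p * w - q * w ^ 2) ^ 2‖ < 3 * ‖p‖ ^ 2 := by
    refine (norm_add₃_le).trans_lt ?_
    rw [norm_mul, norm_mul, norm_pow (w : ℂ), hn]
    linarith
  rw [← e, h5] at h6
  exact lt_irrefl _ h6

end cx

section two

variable {k M : Type} [Field k] [NumberField k] [Field M] [NumberField M] [Algebra k M]

private theorem tO_alg (τ : M ≃ₐ[k] M) (y : 𝓞 k) :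
    tO τ (algebraMap (𝓞 k) (𝓞 M) y) = algebraMap (𝓞 k) (𝓞 M) y := tO_algebraMap τ y

private theorem dM {τ : M ≃ₐ[k] M} (hτ : Invo k M τ) :
    Module.finrank ℚ M = 2 * Module.finrank ℚ k := by
  rw [← Module.finrank_mul_finrank ℚ k M, hτ.deg, mul_comm]

private theorem sz_root (φ : M →+* ℂ) {δ : 𝓞 M} (h : δ ^ 3 = 1) : sz φ δ = 1 := by
  have h1 : sz φ δ ^ 3 = 1 := by
    rw [← Pool.Agent.H67.WA.sz_pow, h, sz_one]
  exact (pow_eq_one_iff_of_nonneg (sz_nonneg _ _) (by norm_num)).1 h1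

variable (k M) in
/-- the number of `b₃` for fixed `b₁`, `b₂` and a fixed direction -/
private theorem fibM : ∃ C : ℝ, 1 ≤ C ∧ ∀ (τ : M ≃ₐ[k] M) (ω : 𝓞 M), Set3 τ ω → ∀ (δ : 𝓞 M),
    δ ^ 3 = 1 → tO τ δ = δ ^ 2 → ∀ (φ : M →+* ℂ) (a : ℂ) (Q : 𝓞 M → ℂ),
    (∀ y : 𝓞 M, ∃ l : ℂ, ∀ x : 𝓞 k, Q (y + algebraMap (𝓞 k) (𝓞 M) x * δ) =
      a * (φ.comp (algebraMap k M)) (x : k) ^ 2 + l * (φ.comp (algebraMap k M)) (x : k) + Q y) →
    ∀ R r E : ℝ, a ≠ 0 → 1 ≤ R → 0 < r → E ≤ ‖a‖ * r ^ 2 → ∀ S : Finset (𝓞 M),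
    (∀ x ∈ S, Bd R x ∧ ‖Q x‖ ≤ E) →
    (S.card : ℝ) ≤ C * ((1 / R + (r / R) ^ (1 / 2 : ℝ)) * R ^ Module.finrank ℚ M) := by
  classical
  obtain ⟨C1, hC1, h1⟩ := lineT k
  obtain ⟨C2, hC2, h2⟩ := boxc k
  obtain ⟨d, hd⟩ : ∃ d, d = Module.finrank ℚ k := ⟨_, rfl⟩
  rw [← hd] at h1 h2
  have h4d : (1 : ℝ) ≤ 4 ^ d := one_le_pow₀ (by norm_num)
  have h2d : (1 : ℝ) ≤ 2 ^ d := one_le_pow₀ (by norm_num)
  refine ⟨(C2 * 4 ^ d) * (C1 * 2 ^ d), one_le_mul_of_one_le_of_one_le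
    (one_le_mul_of_one_le_of_one_le hC2 h4d) (one_le_mul_of_one_le_of_one_le hC1 h2d), ?_⟩
  intro τ ω hs δ hδ hδ2 φ a Q hQ R r E ha hR hr hE S hS
  have hτ : Invo k M τ := hs.inv
  have hR0 : 0 < R := by linarith
  have hω3 : ω ^ 3 = 1 := hs.cube
  have hszω : ∀ ψ : M →+* ℂ, sz ψ ω = 1 := fun ψ => sz_root ψ hω3
  have hszδ : ∀ ψ : M →+* ℂ, sz ψ δ = 1 := fun ψ => sz_root ψ hδ
  obtain ⟨f, hf⟩ : ∃ f : 𝓞 M → 𝓞 M, f = fun x => x * tO τ δ - tO τ x * δ := ⟨_, rfl⟩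
  -- the number of lines
  have hN : ((S.image f).card : ℝ) ≤ (C2 * 4 ^ d) * R ^ d := by
    have hθ : tO τ (ω - ω ^ 2) = -(ω - ω ^ 2) := by
      rw [tO_sub, tO_pow, hs.tau]
      linear_combination (-ω) * hω3
    have hθ0 : ω - ω ^ 2 ≠ 0 := by
      intro h0
      have h5 : (ω - ω ^ 2) * (ω - ω ^ 2) = -3 := by
        linear_combination (ω - 2) * hω3 + hs.om
      rw [h0, mul_zero] at h5
      have h6 : (3 : 𝓞 M) = 0 := by linear_combination h5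
      have h7 : ((3 : ℕ) : 𝓞 M) ≠ 0 := Nat.cast_ne_zero.2 (by norm_num)
      exact h7 (by exact_mod_cast h6)
    have hfix : ∀ x : 𝓞 M, ∃ y : 𝓞 k, algebraMap (𝓞 k) (𝓞 M) y = (ω - ω ^ 2) * f x := by
      intro x
      refine fixed_int hτ ?_
      rw [tO_mul, hθ, hf]
      simp only [tO_sub, tO_mul, tO_tO hτ]
      ring
    choose g hg using hfix
    have hg2 : ∀ x y : 𝓞 M, g x = g y → f x = f y := by
      intro x y h
      have h5 := hg x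
      rw [h, hg y] at h5
      exact (mul_left_cancel₀ hθ0 h5).symm
    have hcard : (S.image f).card ≤ (S.image g).card := by
      refine Finset.card_le_card_of_surjOn
        (fun y => if hy : ∃ x ∈ S, g x = y then f hy.choose else 0) ?_
      intro z hz
      obtain ⟨x, hx, rfl⟩ := Finset.mem_image.1 (Finset.mem_coe.1 hz)
      refine ⟨g x, Finset.mem_coe.2 (Finset.mem_image_of_mem g hx), ?_⟩
      have hy : ∃ x' ∈ S, g x' = g x := ⟨x, hx, rfl⟩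
      show (if hy : ∃ x' ∈ S, g x' = g x then f hy.choose else 0) = f x
      rw [dif_pos hy]
      exact hg2 _ _ hy.choose_spec.2
    have h3 := h2 (4 * R) (by linarith) (S.image g) (by
      intro y hy
      obtain ⟨x, hx, rfl⟩ := Finset.mem_image.1 hy
      refine bd_desc (hg x) fun ψ => ?_
      have h5 : sz ψ (f x) ≤ 2 * R := by
        rw [hf]
        show sz ψ (x * tO τ δ - tO τ x * δ) ≤ 2 * R
        refine (sz_sub ψ _ _).trans ?_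
        rw [sz_mul, sz_mul, hδ2, Pool.Agent.H67.WA.sz_pow, hszδ]
        have e1 : sz ψ (tO τ x) ≤ R := (hS x hx).1 (ψ.comp (τ : M →+* M))
        have e2 : sz ψ x ≤ R := (hS x hx).1 ψ
        linarith
      have h6 : sz ψ (ω - ω ^ 2) ≤ 2 := by
        refine (sz_sub ψ _ _).trans ?_
        rw [Pool.Agent.H67.WA.sz_pow, hszω]
        norm_num
      have h7 : sz ψ ((ω - ω ^ 2) * f x) ≤ 4 * R := by
        rw [sz_mul]
        calc sz ψ (ω - ω ^ 2) * sz ψ (f x) ≤ 2 * (2 * R) :=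
              mul_le_mul h6 h5 (sz_nonneg _ _) (by norm_num)
          _ = 4 * R := by ring
      exact h7)
    calc ((S.image f).card : ℝ) ≤ ((S.image g).card : ℝ) := by exact_mod_cast hcard
      _ ≤ C2 * (4 * R) ^ d := h3
      _ = _ := by rw [mul_pow]; ring
  -- one line
  have hT0 : 0 ≤ 1 / R + (r / R) ^ (1 / 2 : ℝ) := by positivity
  have h5 := card_fib S f (M := (C1 * 2 ^ d) * ((1 / R + (r / R) ^ (1 / 2 : ℝ)) * R ^ d))
    (N := (C2 * 4 ^ d) * R ^ d) (by positivity) hN (fun z hz => by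
      obtain ⟨x0, hx0, hx0z⟩ := Finset.mem_image.1 hz
      have hfib : ∀ x ∈ S.filter (fun x => f x = z), ∃ y : 𝓞 k,
          x = x0 + algebraMap (𝓞 k) (𝓞 M) y * δ ∧ Bd (2 * R) y := by
        intro x hx
        obtain ⟨hx1, hx2⟩ := Finset.mem_filter.1 hx
        have h6 : (x - x0) * δ ^ 2 = tO τ (x - x0) * δ := by
          have h7 : f x = f x0 := hx2.trans hx0z.symm
          rw [hf] at h7
          simp only [hδ2] at h7
          rw [tO_sub]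
          linear_combination h7
        have h8 : tO τ ((x - x0) * δ ^ 2) = (x - x0) * δ ^ 2 := by
          rw [tO_mul, tO_pow, hδ2, h6]
          linear_combination (tO τ (x - x0) * δ) * hδ
        obtain ⟨y, hy⟩ := fixed_int hτ h8
        refine ⟨y, ?_, bd_desc hy fun ψ => ?_⟩
        · rw [hy]
          linear_combination (-(x - x0)) * hδ
        · have h9 : sz ψ ((x - x0) * δ ^ 2) ≤ 2 * R := by
            rw [sz_mul, Pool.Agent.H67.WA.sz_pow, hszδ, one_pow, mul_one]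
            refine (sz_sub ψ _ _).trans ?_
            have e1 : sz ψ x ≤ R := (hS x hx1).1 ψ
            have e2 : sz ψ x0 ≤ R := (hS x0 hx0).1 ψ
            linarith
          exact h9
      have hch : ∀ x : 𝓞 M, ∃ y : 𝓞 k, x ∈ S.filter (fun x => f x = z) →
          x = x0 + algebraMap (𝓞 k) (𝓞 M) y * δ ∧ Bd (2 * R) y := by
        intro x
        by_cases hx : x ∈ S.filter (fun x => f x = z)
        · obtain ⟨y, hy⟩ := hfib x hx
          exact ⟨y, fun _ => hy⟩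
        · exact ⟨0, fun h => absurd h hx⟩
      choose g hg using hch
      have hinj : Set.InjOn g (S.filter fun x => f x = z) := by
        intro x hx x' hx' hxx
        rw [(hg x hx).1, (hg x' hx').1, hxx]
      rw [← Finset.card_image_of_injOn hinj]
      obtain ⟨l, hl⟩ := hQ x0
      have h6 := h1 (φ.comp (algebraMap k M)) a l (Q x0) (2 * R) r E ha (by linarith) hr hE
        ((S.filter fun x => f x = z).image g) (by
          intro y hy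
          obtain ⟨x, hx, rfl⟩ := Finset.mem_image.1 hy
          refine ⟨(hg x hx).2, ?_⟩
          rw [← hl, ← (hg x hx).1]
          exact (hS x (Finset.mem_filter.1 hx).1).2)
      refine h6.trans ?_
      have h7 : 1 / (2 * R) + (r / (2 * R)) ^ (1 / 2 : ℝ) ≤ 1 / R + (r / R) ^ (1 / 2 : ℝ) := by
        have e1 : 1 / (2 * R) ≤ 1 / R := one_div_le_one_div_of_le hR0 (by linarith)
        have e2 : r / (2 * R) ≤ r / R := by
          apply div_le_div_of_nonneg_left hr.le hR0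
          linarith
        exact add_le_add e1 (Real.rpow_le_rpow (by positivity) e2 (by norm_num))
      calc C1 * ((1 / (2 * R) + (r / (2 * R)) ^ (1 / 2 : ℝ)) * (2 * R) ^ d)
          ≤ C1 * ((1 / R + (r / R) ^ (1 / 2 : ℝ)) * (2 * R) ^ d) :=
            mul_le_mul_of_nonneg_left (mul_le_mul_of_nonneg_right h7 (by positivity)) (by linarith)
        _ = _ := by rw [mul_pow]; ring)
  refine h5.trans (le_of_eq ?_)
  rw [dM hτ, ← hd, two_mul, pow_add]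
  ring

private theorem lineE (τ : M ≃ₐ[k] M) {δ : 𝓞 M} (hδ : δ ^ 3 = 1) (hδ2 : tO τ δ = δ ^ 2)
    (φ : M →+* ℂ) (b1 b2 y : 𝓞 M) : ∃ l : ℂ, ∀ x : 𝓞 k,
      φ ((E2 τ (b1, b2, y + algebraMap (𝓞 k) (𝓞 M) x * δ) : 𝓞 M) : M) =
      -(φ (b1 : M) ^ 2 * φ (δ : M) + φ (b1 : M) * φ ((tO τ b1 : 𝓞 M) : M) +
        φ ((tO τ b1 : 𝓞 M) : M) ^ 2 * φ (δ : M) ^ 2) * (φ.comp (algebraMap k M)) (x : k) ^ 2 +
      l * (φ.comp (algebraMap k M)) (x : k) + φ ((E2 τ (b1, b2, y) : 𝓞 M) : M) := by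
  obtain ⟨f, hf⟩ : ∃ f : 𝓞 M →+* ℂ, ∀ x : 𝓞 M, φ (x : M) = f x :=
    ⟨φ.comp (algebraMap (𝓞 M) M), fun x => rfl⟩
  have hx : ∀ x : 𝓞 k, (φ.comp (algebraMap k M)) (x : k) = f (algebraMap (𝓞 k) (𝓞 M) x) := by
    intro x
    rw [← hf]
    rfl
  have hD : f δ ^ 3 = 1 := by rw [← map_pow, hδ, map_one]
  refine ⟨(f b1 * f y - f b2 ^ 2) * (f (tO τ b1) * f δ ^ 2) +
    (f b1 * f δ) * (f (tO τ b1) * f (tO τ y) - f (tO τ b2) ^ 2) -
    2 * (f b1 * f (tO τ y) + f y * f (tO τ b1) - 2 * f b2 * f (tO τ b2)) *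
      (f b1 * f δ ^ 2 + f (tO τ b1) * f δ), fun x => ?_⟩
  rw [hx, hf, hf, hf, hf, hf]
  simp only [E2_eq, map_sub, map_mul, map_pow, map_add, map_ofNat, tO_add, tO_mul, tO_alg, hδ2]
  linear_combination (f (algebraMap (𝓞 k) (𝓞 M) x) ^ 2 * (-(f b1 ^ 2 * f δ) - f b1 * f (tO τ b1))) * hD

private theorem lineD (τ : M ≃ₐ[k] M) {δ : 𝓞 M} (hδ : δ ^ 3 = 1) (hδ2 : tO τ δ = δ ^ 2)
    (φ : M →+* ℂ) (b1 b2 y : 𝓞 M) : ∃ l : ℂ, ∀ x : 𝓞 k,
      φ ((dl2 τ (b1, b2, y + algebraMap (𝓞 k) (𝓞 M) x * δ) : 𝓞 M) : M) =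
      (φ (b1 : M) * φ (δ : M) ^ 2 - φ ((tO τ b1 : 𝓞 M) : M) * φ (δ : M)) ^ 2 *
        (φ.comp (algebraMap k M)) (x : k) ^ 2 +
      l * (φ.comp (algebraMap k M)) (x : k) + φ ((dl2 τ (b1, b2, y) : 𝓞 M) : M) := by
  obtain ⟨f, hf⟩ : ∃ f : 𝓞 M →+* ℂ, ∀ x : 𝓞 M, φ (x : M) = f x :=
    ⟨φ.comp (algebraMap (𝓞 M) M), fun x => rfl⟩
  have hx : ∀ x : 𝓞 k, (φ.comp (algebraMap k M)) (x : k) = f (algebraMap (𝓞 k) (𝓞 M) x) := by
    intro x
    rw [← hf]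
    rfl
  have hD : f δ ^ 3 = 1 := by rw [← map_pow, hδ, map_one]
  refine ⟨2 * (f b1 * f (tO τ y) + f y * f (tO τ b1) - 2 * f b2 * f (tO τ b2)) *
      (f b1 * f δ ^ 2 + f (tO τ b1) * f δ) - 4 * ((f b1 * f y - f b2 ^ 2) * (f (tO τ b1) * f δ ^ 2) +
    (f b1 * f δ) * (f (tO τ b1) * f (tO τ y) - f (tO τ b2) ^ 2)), fun x => ?_⟩
  have hdl : ∀ z : 𝓞 M, dl2 τ (b1, b2, z) = (b1 * tO τ z + z * tO τ b1 - 2 * b2 * tO τ b2) ^ 2 -
      4 * ((b1 * z - b2 ^ 2) * (tO τ b1 * tO τ z - tO τ b2 ^ 2)) := fun z => rfl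
  rw [hx, hf, hf, hf, hf, hf]
  simp only [hdl, map_sub, map_mul, map_pow, map_add, map_ofNat, tO_add, tO_mul, tO_alg, hδ2]
  ring

variable (k M) in
/-- the number of `b₃` for fixed `b₁ ≠ 0`, `b₂` -/
private theorem fib2 : ∃ C : ℝ, 1 ≤ C ∧ ∀ (τ : M ≃ₐ[k] M) (ω : 𝓞 M), Set3 τ ω →
    ∀ (φ : M →+* ℂ) (b1 b2 : 𝓞 M), b1 ≠ 0 → ∀ R ε : ℝ, 1 ≤ R → 0 < ε → ∀ S : Finset (𝓞 M),
    (∀ x ∈ S, Bd R x ∧ (sz φ (E2 τ (b1, b2, x)) ≤ ε ^ 2 ∨ sz φ (dl2 τ (b1, b2, x)) ≤ ε ^ 2)) →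
    (S.card : ℝ) ≤ C * ((1 / R + (ε / sz φ b1 / R) ^ (1 / 2 : ℝ)) *
      R ^ Module.finrank ℚ M) := by
  classical
  obtain ⟨C1, hC1, h1⟩ := fibM k M
  refine ⟨2 * C1, by linarith, ?_⟩
  intro τ ω hs φ b1 b2 hb1 R ε hR hε S hS
  have hR0 : 0 < R := by linarith
  have hp : 0 < sz φ b1 := sz_pos φ hb1
  have hr : 0 < ε / sz φ b1 := by positivity
  have hω3 : ω ^ 3 = 1 := hs.cube
  have hw : φ (ω : M) ^ 2 + φ (ω : M) + 1 = 0 := by
    have h2 := congrArg (fun z : 𝓞 M => φ (z : M)) hs.om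
    simpa [map_add, map_pow] using h2
  have hE : ∀ a : ℂ, ‖φ (b1 : M)‖ ^ 2 ≤ ‖a‖ → a ≠ 0 ∧ ε ^ 2 ≤ ‖a‖ * (ε / sz φ b1) ^ 2 := by
    intro a ha
    have hp' : 0 < ‖φ (b1 : M)‖ := hp
    constructor
    · rintro rfl
      rw [norm_zero] at ha
      have : 0 < ‖φ (b1 : M)‖ ^ 2 := by positivity
      linarith
    · have e1 : ε ^ 2 = sz φ b1 ^ 2 * (ε / sz φ b1) ^ 2 := by
        field_simp
      calc ε ^ 2 = sz φ b1 ^ 2 * (ε / sz φ b1) ^ 2 := e1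
        _ ≤ ‖a‖ * (ε / sz φ b1) ^ 2 := mul_le_mul_of_nonneg_right ha (by positivity)
  have d1 : (1 : 𝓞 M) ^ 3 = 1 := one_pow 3
  have d1' : tO τ (1 : 𝓞 M) = 1 ^ 2 := by rw [tO_one, one_pow]
  have d2' : tO τ ω = ω ^ 2 := hs.tau
  have d3 : (ω ^ 2) ^ 3 = 1 := by rw [← pow_mul, mul_comm, pow_mul, hω3, one_pow]
  have d3' : tO τ (ω ^ 2) = (ω ^ 2) ^ 2 := by rw [tO_pow, hs.tau]
  have c1 : φ ((1 : 𝓞 M) : M) = 1 := by simp
  have c3 : φ ((ω ^ 2 : 𝓞 M) : M) = φ (ω : M) ^ 2 := by simp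
  have hw3 : φ (ω : M) ^ 3 = 1 := by linear_combination (φ (ω : M) - 1) * hw
  have gE : ∀ (δ : 𝓞 M), δ ^ 3 = 1 → tO τ δ = δ ^ 2 →
      ‖φ (b1 : M)‖ ^ 2 ≤ ‖-(φ (b1 : M) ^ 2 * φ (δ : M) + φ (b1 : M) * φ ((tO τ b1 : 𝓞 M) : M) +
        φ ((tO τ b1 : 𝓞 M) : M) ^ 2 * φ (δ : M) ^ 2)‖ →
      ∀ T : Finset (𝓞 M), (∀ x ∈ T, Bd R x ∧ sz φ (E2 τ (b1, b2, x)) ≤ ε ^ 2) →
      (T.card : ℝ) ≤ C1 * ((1 / R + (ε / sz φ b1 / R) ^ (1 / 2 : ℝ)) *
        R ^ Module.finrank ℚ M) := by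
    intro δ hδ hδ2 ha T hT
    obtain ⟨ha0, ha1⟩ := hE _ ha
    exact h1 τ ω hs δ hδ hδ2 φ _ (fun y => φ ((E2 τ (b1, b2, y) : 𝓞 M) : M))
      (fun y => lineE τ hδ hδ2 φ b1 b2 y) R (ε / sz φ b1) (ε ^ 2) ha0 hR hr ha1 T hT
  have gD : ∀ (δ : 𝓞 M), δ ^ 3 = 1 → tO τ δ = δ ^ 2 →
      ‖φ (b1 : M)‖ ^ 2 ≤ ‖(φ (b1 : M) * φ (δ : M) ^ 2 - φ ((tO τ b1 : 𝓞 M) : M) * φ (δ : M)) ^ 2‖ →
      ∀ T : Finset (𝓞 M), (∀ x ∈ T, Bd R x ∧ sz φ (dl2 τ (b1, b2, x)) ≤ ε ^ 2) →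
      (T.card : ℝ) ≤ C1 * ((1 / R + (ε / sz φ b1 / R) ^ (1 / 2 : ℝ)) *
        R ^ Module.finrank ℚ M) := by
    intro δ hδ hδ2 ha T hT
    obtain ⟨ha0, ha1⟩ := hE _ ha
    exact h1 τ ω hs δ hδ hδ2 φ _ (fun y => φ ((dl2 τ (b1, b2, y) : 𝓞 M) : M))
      (fun y => lineD τ hδ hδ2 φ b1 b2 y) R (ε / sz φ b1) (ε ^ 2) ha0 hR hr ha1 T hT
  have kE : ∀ T : Finset (𝓞 M), (∀ x ∈ T, Bd R x ∧ sz φ (E2 τ (b1, b2, x)) ≤ ε ^ 2) →
      (T.card : ℝ) ≤ C1 * ((1 / R + (ε / sz φ b1 / R) ^ (1 / 2 : ℝ)) *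
        R ^ Module.finrank ℚ M) := by
    intro T hT
    rcases lead1 (p := φ (b1 : M)) (q := φ ((tO τ b1 : 𝓞 M) : M)) hw with h | h | h
    · refine gE 1 d1 d1' ?_ T hT
      rw [norm_neg, c1, mul_one, one_pow, mul_one]
      exact h
    · refine gE ω hω3 d2' ?_ T hT
      rw [norm_neg]
      exact h
    · refine gE (ω ^ 2) d3 d3' ?_ T hT
      rw [norm_neg, c3]
      refine h.trans (le_of_eq (congrArg norm ?_))
      linear_combination (-(φ ((tO τ b1 : 𝓞 M) : M) ^ 2 * φ (ω : M))) * hw3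
  have kD : ∀ T : Finset (𝓞 M), (∀ x ∈ T, Bd R x ∧ sz φ (dl2 τ (b1, b2, x)) ≤ ε ^ 2) →
      (T.card : ℝ) ≤ C1 * ((1 / R + (ε / sz φ b1 / R) ^ (1 / 2 : ℝ)) *
        R ^ Module.finrank ℚ M) := by
    intro T hT
    rcases lead2 (p := φ (b1 : M)) (q := φ ((tO τ b1 : 𝓞 M) : M)) hw with h | h | h
    · refine gD 1 d1 d1' ?_ T hT
      rw [c1, mul_one, one_pow, mul_one]
      exact h
    · exact gD ω hω3 d2' h T hT
    · refine gD (ω ^ 2) d3 d3' ?_ T hT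
      rw [c3]
      refine h.trans (le_of_eq (congrArg norm ?_))
      have e1 : φ (b1 : M) * (φ (ω : M) ^ 2) ^ 2 = φ (b1 : M) * φ (ω : M) := by
        linear_combination (φ (b1 : M) * φ (ω : M)) * hw3
      rw [e1]
  rw [← Finset.card_filter_add_card_filter_not (fun x : 𝓞 M => sz φ (E2 τ (b1, b2, x)) ≤ ε ^ 2)]
  push_cast
  have g1 := kE (S.filter fun x : 𝓞 M => sz φ (E2 τ (b1, b2, x)) ≤ ε ^ 2) fun x hx =>
    ⟨(hS x (Finset.mem_filter.1 hx).1).1, (Finset.mem_filter.1 hx).2⟩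
  have g2 := kD (S.filter fun x : 𝓞 M => ¬ sz φ (E2 τ (b1, b2, x)) ≤ ε ^ 2) fun x hx =>
    ⟨(hS x (Finset.mem_filter.1 hx).1).1,
      (hS x (Finset.mem_filter.1 hx).1).2.resolve_left (Finset.mem_filter.1 hx).2⟩
  linarith

variable (k M) in
theorem exb3 : Exb3Stmt k M := by
  classical
  obtain ⟨C1, hC1, h1⟩ := fib2 k M
  obtain ⟨C2, hC2, h2⟩ := boxc M
  obtain ⟨C3, hC3, h3⟩ := psum M
  obtain ⟨d, hd⟩ : ∃ d, d = Module.finrank ℚ M := ⟨_, rfl⟩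
  have hd0 : d ≠ 0 := hd ▸ Module.finrank_pos.ne'
  intro τ ω0 hω C hC
  obtain ⟨ω, hs⟩ := set3_of hω
  rw [← hd] at h1 h2 h3
  have hC0 : 0 < C := by linarith
  refine ⟨(C2 * (C1 * C2) + C2 * (C1 * C3) + C2 * C2) * C ^ (3 * d), by positivity, ?_⟩
  intro s ρ1 ρ2 μ hs1 hρ1 hρ12 hsρ hμ hμ1 hμs φ S hS
  rw [← hd]
  have hs0 : 0 < s := by linarith
  have hρ2 : 0 < ρ2 := by linarith
  obtain ⟨R1, hR1⟩ : ∃ R, R = C * s * ρ1 ^ 2 := ⟨_, rfl⟩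
  obtain ⟨R2, hR2⟩ : ∃ R, R = C * s * (ρ1 * ρ2) := ⟨_, rfl⟩
  obtain ⟨R3, hR3⟩ : ∃ R, R = C * s * ρ2 ^ 2 := ⟨_, rfl⟩
  have hq1 : ρ1 ^ 2 ≤ ρ1 * ρ2 := by
    rw [pow_two]
    exact mul_le_mul_of_nonneg_left hρ12 hρ1.le
  have hq2 : ρ1 * ρ2 ≤ ρ2 ^ 2 := by
    rw [pow_two]
    exact mul_le_mul_of_nonneg_right hρ12 hρ2.le
  have hA : s * ρ1 ^ 2 ≤ R1 := by
    rw [hR1, mul_assoc]
    exact le_mul_of_one_le_left (by positivity) hC
  have hB : R1 ≤ R2 := by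
    rw [hR1, hR2]
    exact mul_le_mul_of_nonneg_left hq1 (by positivity)
  have hD : R2 ≤ R3 := by
    rw [hR2, hR3]
    exact mul_le_mul_of_nonneg_left hq2 (by positivity)
  have hA1 : 1 ≤ R1 := hsρ.trans hA
  have hB1 : 1 ≤ R2 := hA1.trans hB
  have hD1 : 1 ≤ R3 := hB1.trans hD
  have hR10 : 0 < R1 := by linarith
  have hR20 : 0 < R2 := by linarith
  have hR30 : 0 < R3 := by linarith
  obtain ⟨V, hV⟩ : ∃ V, V = R1 ^ d * (R2 ^ d * R3 ^ d) := ⟨_, rfl⟩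
  have hV0 : 0 < V := by rw [hV]; positivity
  have hVe : V = C ^ (3 * d) * (s ^ (3 * d) * (ρ1 * ρ2) ^ (3 * d)) := by
    have e1 : R1 * (R2 * R3) = C ^ 3 * (s ^ 3 * (ρ1 * ρ2) ^ 3) := by
      rw [hR1, hR2, hR3]
      ring
    rw [hV, ← mul_pow, ← mul_pow, e1, mul_pow, mul_pow, ← pow_mul, ← pow_mul, ← pow_mul]
  have hμh : μ ≤ μ ^ (1 / 2 : ℝ) := by
    have h5 := Real.rpow_le_rpow_of_exponent_ge hμ hμ1 (show (1 / 2 : ℝ) ≤ 1 by norm_num)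
    rwa [Real.rpow_one] at h5
  obtain ⟨Y, hY⟩ : ∃ Y, Y = μ ^ (1 / 2 : ℝ) / ρ1 ^ 2 := ⟨_, rfl⟩
  have hY0 : 0 < Y := by rw [hY]; positivity
  have hsY : 1 / (s * ρ1 ^ 2) ≤ Y := by
    have h5 : 1 / s ≤ μ := by
      rw [div_le_iff₀ hs0]
      exact hμs
    rw [hY, ← div_div]
    exact div_le_div_of_nonneg_right (h5.trans hμh) (by positivity)
  have hX1 : 1 / R1 ≤ Y := (one_div_le_one_div_of_le (by positivity) hA).trans hsY
  have hX3 : 1 / R3 ≤ Y := (one_div_le_one_div_of_le hR10 (hB.trans hD)).trans hX1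
  have hX2 : (μ * s ^ 2 / (R1 * R3)) ^ (1 / 2 : ℝ) ≤ Y := by
    have h5 : μ * s ^ 2 / (R1 * R3) ≤ μ / (ρ1 * ρ2) ^ 2 := by
      rw [div_le_div_iff₀ (by positivity) (by positivity), hR1, hR3]
      have h6 : 1 ≤ C ^ 2 := one_le_pow₀ hC
      calc μ * s ^ 2 * (ρ1 * ρ2) ^ 2 = μ * (1 * (s ^ 2 * (ρ1 * ρ2) ^ 2)) := by ring
        _ ≤ μ * (C ^ 2 * (s ^ 2 * (ρ1 * ρ2) ^ 2)) := by gcongr
        _ = _ := by ring
    refine (Real.rpow_le_rpow (by positivity) h5 (by norm_num)).trans ?_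
    rw [Real.div_rpow hμ.le (by positivity), hY]
    have h7 : ((ρ1 * ρ2) ^ 2) ^ (1 / 2 : ℝ) = ρ1 * ρ2 := by
      rw [← Real.sqrt_eq_rpow, Real.sqrt_sq (by positivity)]
    rw [h7]
    exact div_le_div_of_nonneg_left (by positivity) (by positivity) hq1
  -- `b₁ = 0`
  have hbox : ∀ T : Finset (𝓞 M), ∀ R : ℝ, 1 ≤ R → (∀ x ∈ T, Bd R x) → (T.card : ℝ) ≤ C2 * R ^ d :=
    fun T R hR hT => h2 R hR T hT
  have hz : ((S.filter fun b => b.1 = 0).card : ℝ) ≤ C2 * C2 * (V * Y) := by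
    have g1 := card_fib (S.filter fun b => b.1 = 0) (fun b => b.2.1) (M := C2 * R3 ^ d)
      (N := C2 * R2 ^ d) (by positivity) (hbox _ R2 hB1 fun x hx => by
        obtain ⟨b, hb, rfl⟩ := Finset.mem_image.1 hx
        rw [hR2]
        exact (hS b (Finset.mem_filter.1 hb).1).1.2.1) (fun z _ => by
        have hinj : Set.InjOn (fun b : T3 M => b.2.2)
            ((S.filter fun b => b.1 = 0).filter fun b => b.2.1 = z) := by
          intro b hb b' hb' hbb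
          obtain ⟨x1, x2⟩ := Finset.mem_filter.1 (Finset.mem_coe.1 hb)
          obtain ⟨y1, y2⟩ := Finset.mem_filter.1 (Finset.mem_coe.1 hb')
          have x3 := (Finset.mem_filter.1 x1).2
          have y3 := (Finset.mem_filter.1 y1).2
          exact Prod.ext (x3.trans y3.symm) (Prod.ext (x2.trans y2.symm) hbb)
        rw [← Finset.card_image_of_injOn hinj]
        refine hbox _ R3 hD1 fun x hx => ?_
        obtain ⟨b, hb, rfl⟩ := Finset.mem_image.1 hx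
        rw [hR3]
        exact (hS b (Finset.mem_filter.1 (Finset.mem_filter.1 hb).1).1).1.2.2)
    refine g1.trans ?_
    have g2 : R2 ^ d * R3 ^ d ≤ V * Y := by
      have g3 : R1 ≤ R1 ^ d := le_self_pow₀ hA1 hd0
      have g4 : 1 ≤ R1 ^ d * Y := by
        calc (1 : ℝ) = R1 * (1 / R1) := by field_simp
          _ ≤ R1 ^ d * Y := mul_le_mul g3 hX1 (by positivity) (by positivity)
      calc R2 ^ d * R3 ^ d = (R2 ^ d * R3 ^ d) * 1 := (mul_one _).symm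
        _ ≤ (R2 ^ d * R3 ^ d) * (R1 ^ d * Y) := mul_le_mul_of_nonneg_left g4 (by positivity)
        _ = V * Y := by rw [hV]; ring
    calc C2 * R2 ^ d * (C2 * R3 ^ d) = C2 * C2 * (R2 ^ d * R3 ^ d) := by ring
      _ ≤ _ := mul_le_mul_of_nonneg_left g2 (by positivity)
  -- `b₁ ≠ 0`
  obtain ⟨T, hT⟩ : ∃ T, T = S.filter (fun b => ¬ b.1 = 0) := ⟨_, rfl⟩
  have hε : 0 < μ * s ^ 2 := by positivity
  have hT1 : ∀ x ∈ T.image (fun b => b.1), x ≠ 0 ∧ Bd R1 x := by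
    intro x hx
    obtain ⟨b, hb, rfl⟩ := Finset.mem_image.1 hx
    rw [hT] at hb
    rw [hR1]
    exact ⟨(Finset.mem_filter.1 hb).2, (hS b (Finset.mem_filter.1 hb).1).1.1⟩
  have hfib : ∀ x ∈ T.image (fun b => b.1), ((T.filter fun b => b.1 = x).card : ℝ) ≤
      C2 * R2 ^ d * (C1 * ((1 / R3 + (μ * s ^ 2 / sz φ x / R3) ^ (1 / 2 : ℝ)) * R3 ^ d)) := by
    intro x hx
    have hx0 := (hT1 x hx).1
    have hxp := sz_pos φ hx0
    refine card_fib (T.filter fun b => b.1 = x) (fun b => b.2.1)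
      (M := C1 * ((1 / R3 + (μ * s ^ 2 / sz φ x / R3) ^ (1 / 2 : ℝ)) * R3 ^ d))
      (N := C2 * R2 ^ d) (by positivity) (hbox _ R2 hB1 fun y hy => ?_) fun z _ => ?_
    · obtain ⟨b, hb, rfl⟩ := Finset.mem_image.1 hy
      rw [hT] at hb
      rw [hR2]
      exact (hS b (Finset.mem_filter.1 (Finset.mem_filter.1 hb).1).1).1.2.1
    · have hinj : Set.InjOn (fun b : T3 M => b.2.2)
          ((T.filter fun b => b.1 = x).filter fun b => b.2.1 = z) := by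
        intro b hb b' hb' hbb
        obtain ⟨x1, x2⟩ := Finset.mem_filter.1 (Finset.mem_coe.1 hb)
        obtain ⟨y1, y2⟩ := Finset.mem_filter.1 (Finset.mem_coe.1 hb')
        have x3 := (Finset.mem_filter.1 x1).2
        have y3 := (Finset.mem_filter.1 y1).2
        exact Prod.ext (x3.trans y3.symm) (Prod.ext (x2.trans y2.symm) hbb)
      rw [← Finset.card_image_of_injOn hinj]
      refine h1 τ ω hs φ x z hx0 R3 (μ * s ^ 2) hD1 hε _ fun y hy => ?_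
      obtain ⟨b, hb, rfl⟩ := Finset.mem_image.1 hy
      obtain ⟨x1, x2⟩ := Finset.mem_filter.1 hb
      obtain ⟨x3, x4⟩ := Finset.mem_filter.1 x1
      rw [hT] at x3
      have x5 := hS b (Finset.mem_filter.1 x3).1
      have e1 : (x, z, b.2.2) = b := Prod.ext x4.symm (Prod.ext x2.symm rfl)
      have e2 : (μ * s ^ 2) ^ 2 = μ ^ 2 * s ^ 4 := by ring
      rw [e1, e2]
      refine ⟨?_, x5.2⟩
      rw [hR3]
      exact x5.1.2.2
  have hTc : (T.card : ℝ) ≤ (C2 * (C1 * C2) + C2 * (C1 * C3)) * (V * Y) := by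
    rw [Finset.card_eq_sum_card_image (fun b => b.1) T, Nat.cast_sum]
    refine (Finset.sum_le_sum hfib).trans ?_
    have e1 : ∀ x ∈ T.image (fun b => b.1),
        C2 * R2 ^ d * (C1 * ((1 / R3 + (μ * s ^ 2 / sz φ x / R3) ^ (1 / 2 : ℝ)) * R3 ^ d)) =
        (C2 * C1 * (R2 ^ d * R3 ^ d) * (1 / R3)) * 1 + (C2 * C1 * (R2 ^ d * R3 ^ d) *
          (μ * s ^ 2 / R3) ^ (1 / 2 : ℝ)) * sz φ x ^ (-(1 / 2) : ℝ) := by
      intro x hx
      have hxp := sz_pos φ (hT1 x hx).1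
      have e2 : μ * s ^ 2 / sz φ x / R3 = (μ * s ^ 2 / R3) * (sz φ x)⁻¹ := by
        field_simp
      rw [e2, Real.mul_rpow (by positivity) (by positivity), Real.inv_rpow hxp.le,
        ← Real.rpow_neg hxp.le]
      ring
    rw [Finset.sum_congr rfl e1, Finset.sum_add_distrib, ← Finset.mul_sum, ← Finset.mul_sum,
      Finset.sum_const, nsmul_eq_mul, mul_one]
    have g1 := hbox (T.image fun b => b.1) R1 hA1 fun x hx => (hT1 x hx).2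
    have g2 := h3 φ R1 hA1 (T.image fun b => b.1) hT1
    have g3 : (C2 * C1 * (R2 ^ d * R3 ^ d) * (1 / R3)) * ((T.image fun b => b.1).card : ℝ) ≤
        C2 * (C1 * C2) * (V * Y) := by
      calc (C2 * C1 * (R2 ^ d * R3 ^ d) * (1 / R3)) * ((T.image fun b => b.1).card : ℝ)
          ≤ (C2 * C1 * (R2 ^ d * R3 ^ d) * (1 / R3)) * (C2 * R1 ^ d) :=
            mul_le_mul_of_nonneg_left g1 (by positivity)
        _ = C2 * (C1 * C2) * (V * (1 / R3)) := by rw [hV]; ring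
        _ ≤ _ := mul_le_mul_of_nonneg_left (mul_le_mul_of_nonneg_left hX3 hV0.le) (by positivity)
    have g4 : (C2 * C1 * (R2 ^ d * R3 ^ d) * (μ * s ^ 2 / R3) ^ (1 / 2 : ℝ)) *
        ∑ x ∈ T.image (fun b => b.1), sz φ x ^ (-(1 / 2) : ℝ) ≤ C2 * (C1 * C3) * (V * Y) := by
      have e3 : (μ * s ^ 2 / R3) ^ (1 / 2 : ℝ) * R1 ^ (-(1 / 2) : ℝ) =
          (μ * s ^ 2 / (R1 * R3)) ^ (1 / 2 : ℝ) := by
        rw [Real.rpow_neg hR10.le, ← Real.inv_rpow hR10.le,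
          ← Real.mul_rpow (by positivity) (by positivity)]
        congr 1
        field_simp
      calc (C2 * C1 * (R2 ^ d * R3 ^ d) * (μ * s ^ 2 / R3) ^ (1 / 2 : ℝ)) *
            ∑ x ∈ T.image (fun b => b.1), sz φ x ^ (-(1 / 2) : ℝ)
          ≤ (C2 * C1 * (R2 ^ d * R3 ^ d) * (μ * s ^ 2 / R3) ^ (1 / 2 : ℝ)) *
            (C3 * (R1 ^ (-(1 / 2) : ℝ) * R1 ^ d)) :=
            mul_le_mul_of_nonneg_left g2 (by positivity)
        _ = C2 * (C1 * C3) * (V * ((μ * s ^ 2 / R3) ^ (1 / 2 : ℝ) * R1 ^ (-(1 / 2) : ℝ))) := by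
            rw [hV]; ring
        _ = C2 * (C1 * C3) * (V * (μ * s ^ 2 / (R1 * R3)) ^ (1 / 2 : ℝ)) := by rw [e3]
        _ ≤ _ := mul_le_mul_of_nonneg_left (mul_le_mul_of_nonneg_left hX2 hV0.le) (by positivity)
    calc _ ≤ C2 * (C1 * C2) * (V * Y) + C2 * (C1 * C3) * (V * Y) := add_le_add (by
          rw [mul_comm]
          rw [mul_comm] at g3
          exact g3) g4
      _ = _ := by ring
  rw [← Finset.card_filter_add_card_filter_not (fun b : T3 M => b.1 = 0)]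
  push_cast
  rw [← hT]
  calc _ ≤ C2 * C2 * (V * Y) + (C2 * (C1 * C2) + C2 * (C1 * C3)) * (V * Y) := add_le_add hz hTc
    _ = _ := by
        rw [hVe, hY]
        ring

end two

end H96.AQ
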